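import Pool.Agent.H71.GW.Targets
import Pool.Agent.H23.GF.Nat

/-!
Lattice Golomb-Welch (MP_684e05_nt): from the group to the structure `Sys`.
-/

set_option autoImplicit false

open Finset
open scoped Classical

namespace Pool.Agent.H2.GW

open Pool.Agent.H71.GW
open Pool.Agent.H23.GC (PC nrm ell Vn nb)
open Pool.Agent.H23.GF (Lv Le mem_Lv mem_Vn dft dft_add_ell R1 R2 exists_deep class_ineq
  sum_coset Le_iff Yd)

variable {ι : Type}

/-- positive and negative part -/
def pn (z : ι → ℤ) : ι × Bool → ℕ := fun p => if p.2 then (z p.1).toNat else (-z p.1).toNat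

/-- the inverse -/
def ip (u : ι × Bool → ℕ) : ι → ℤ := fun j => (u (j, true) : ℤ) - u (j, false)

lemma pn_true (z : ι → ℤ) (j : ι) : pn z (j, true) = (z j).toNat := rfl
lemma pn_false (z : ι → ℤ) (j : ι) : pn z (j, false) = (-z j).toNat := rfl

lemma val_pn (z : ι → ℤ) : Val (pn z) := by
  intro j
  rw [pn_true, pn_false]
  omega

lemma ip_pn (z : ι → ℤ) : ip (pn z) = z := by
  funext j
  simp only [ip]
  rw [pn_true, pn_false]
  omega

lemma pn_ip {u : ι × Bool → ℕ} (h : Val u) : pn (ip u) = u := by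
  funext p
  obtain ⟨j, b⟩ := p
  have hj := h j
  cases b
  · rw [pn_false]
    simp only [ip]
    omega
  · rw [pn_true]
    simp only [ip]
    omega

lemma pn_injective : Function.Injective (pn (ι := ι)) := by
  intro a b h
  rw [← ip_pn a, ← ip_pn b, h]

variable [Fintype ι]

lemma wt_pn (z : ι → ℤ) : wt (pn z) = nrm z := by
  unfold wt nrm
  rw [Fintype.sum_prod_type]
  refine sum_congr rfl fun j _ => ?_
  rw [Fintype.sum_bool, pn_true, pn_false]
  omega

lemma len_pn (z : ι → ℤ) : len (pn z) = ell z := by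
  unfold len ell
  rw [card_filter, card_filter, Fintype.sum_prod_type]
  refine sum_congr rfl fun j _ => ?_
  rw [Fintype.sum_bool, pn_true, pn_false]
  rcases lt_trichotomy (z j) 0 with h | h | h
  · rw [if_neg (by omega), if_pos (by omega), if_pos (by omega)]
  · rw [if_neg (by omega), if_neg (by omega), if_neg (by omega)]
  · rw [if_pos (by omega), if_neg (by omega), if_pos (by omega)]

lemma pn_le_iff (c z : ι → ℤ) : pn c ≤ pn z ↔ Le c z := by
  rw [Le_iff, Pi.le_def]
  constructor
  · intro h j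
    have h1 := h (j, true)
    have h2 := h (j, false)
    rw [pn_true, pn_true] at h1
    rw [pn_false, pn_false] at h2
    omega
  · rintro h ⟨j, b⟩
    have hj := h j
    cases b
    · rw [pn_false, pn_false]
      omega
    · rw [pn_true, pn_true]
      omega

lemma existsUnique_image {L : Finset (ι → ℤ)} {c : ι × Bool → ℕ} (hc : Val c)
    (h : ∃! v, v ∈ L ∧ Le (ip c) v) : ∃! z, z ∈ L.image pn ∧ c ≤ z := by
  obtain ⟨v, ⟨h1, h2⟩, h3⟩ := h
  refine ⟨pn v, ⟨mem_image_of_mem _ h1, ?_⟩, ?_⟩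
  · rw [← pn_le_iff, pn_ip hc] at h2
    exact h2
  · rintro z ⟨hz, hcz⟩
    rw [mem_image] at hz
    obtain ⟨w, hw, rfl⟩ := hz
    rw [← pn_ip hc, pn_le_iff] at hcz
    rw [h3 w ⟨hw, hcz⟩]

theorem grp : T_GRP := by
  intro ι _ G _ s i ev h hs his hmod
  have hip : ∀ c : ι × Bool → ℕ, Val c → nrm (ip c) = wt c := by
    intro c hc
    rw [← wt_pn, pn_ip hc]
  refine ⟨{ Z0 := (Lv ev (2 * s + 1)).image pn
            Z1 := (Lv ev (2 * s + 2)).image pn
            val0 := ?_, val1 := ?_, wt0 := ?_, wt1 := ?_, r1 := ?_, r2 := ?_, cls := ?_ }⟩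
  · intro z hz
    rw [mem_image] at hz
    obtain ⟨w, -, rfl⟩ := hz
    exact val_pn w
  · intro z hz
    rw [mem_image] at hz
    obtain ⟨w, -, rfl⟩ := hz
    exact val_pn w
  · intro z hz
    rw [mem_image] at hz
    obtain ⟨w, hw, rfl⟩ := hz
    rw [wt_pn]
    exact (mem_Lv.1 hw).1
  · intro z hz
    rw [mem_image] at hz
    obtain ⟨w, hw, rfl⟩ := hz
    rw [wt_pn]
    exact (mem_Lv.1 hw).1
  · intro c hc hwt
    exact existsUnique_image hc (R1 h (mem_Vn.2 ((hip c hc).trans hwt)))
  · intro p hp hwt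
    have h1 := existsUnique_image hp (R2 h (mem_Vn.2 ((hip p hp).trans hwt)))
    rw [image_union] at h1
    exact h1
  · intro c hc hwt hlen
    have hcV : ip c ∈ Vn ι (s + 1) := mem_Vn.2 ((hip c hc).trans hwt)
    obtain ⟨d, ⟨hd, hcd⟩, -⟩ := exists_deep h hs hcV
    have hell : ell (ip c) = len c := by rw [← len_pn, pn_ip hc]
    have hdft : i ≤ dft (ip c) := by
      have := dft_add_ell (ip c)
      rw [hip c hc, hwt, hell] at this
      omega
    have h1 := class_ineq h hs (Nat.dvd_of_mod_eq_zero hmod) hcV hd hcd hdft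
    have h2 := sum_coset h hcV (fun _ => (1 : ℝ))
    simp only [sum_const, nsmul_eq_mul, mul_one] at h2
    have h3 : nb s ev d = 1 + #{w ∈ Lv ev (2 * s + 2) | Le (ip c) w} := by
      unfold nb
      rw [hcd]
      exact_mod_cast h2
    have h4 : #{z ∈ (Lv ev (2 * s + 2)).image pn | c ≤ z} =
        #{w ∈ Lv ev (2 * s + 2) | Le (ip c) w} := by
      rw [filter_image, card_image_of_injective _ pn_injective]
      congr 1
      refine filter_congr fun w _ => ?_
      rw [← pn_le_iff, pn_ip hc]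
    rw [h4, ← h3]
    unfold Yd at h1
    have h5 : ((2 * Fintype.card ι + i : ℕ) : ℤ) ≤ (((s + 1) * nb s ev d : ℕ) : ℤ) := by
      push_cast
      linarith
    exact_mod_cast h5

end Pool.Agent.H2.GW
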