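import Pool.Agent.H2.GW.NumBase

/-!
Lattice Golomb-Welch (MP_684e05_nt): numerical check, part B.
-/

set_option autoImplicit false
set_option maxRecDepth 100000

namespace Pool.Agent.H2.GW

theorem a15 : P0 15 4 2 = true := by decide +kernel
theorem a16 : P0 16 4 2 = true := by decide +kernel
theorem a17 : P0 17 4 2 = true := by decide +kernel
theorem a18 : P0 18 4 2 = true := by decide +kernel
theorem a19 : P0 19 4 2 = true := by decide +kernel
theorem a20 : P0 20 4 2 = true := by decide +kernel
theorem a21 : P0 21 4 2 = true := by decide +kernel
theorem a22 : P0 22 4 2 = true := by decide +kernel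
theorem a23 : P0 23 4 2 = true := by decide +kernel
theorem a24 : P0 24 4 2 = true := by decide +kernel
theorem a25 : P0 25 4 2 = true := by decide +kernel
theorem a26 : P0 26 4 2 = true := by decide +kernel
theorem a27 : P0 27 5 1 = true := by decide +kernel
theorem a28 : P0 28 4 1 = true := by decide +kernel
theorem a29 : P0 29 4 1 = true := by decide +kernel
theorem a30 : P0 30 4 1 = true := by decide +kernel
theorem a31 : P0 31 4 1 = true := by decide +kernel
theorem a32 : P0 32 4 1 = true := by decide +kernel
theorem a33 : P0 33 4 1 = true := by decide +kernel
theorem a34 : P0 34 4 1 = true := by decide +kernel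
theorem a35 : P0 35 4 1 = true := by decide +kernel
theorem a36 : P0 36 4 1 = true := by decide +kernel
theorem a37 : P0 37 4 1 = true := by decide +kernel
theorem a38 : P0 38 4 1 = true := by decide +kernel
theorem a39 : P0 39 4 1 = true := by decide +kernel
theorem a40 : P0 40 4 1 = true := by decide +kernel

end Pool.Agent.H2.GW
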