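import Pool.Agent.H2.GW.NumBase

/-!
Lattice Golomb-Welch (MP_684e05_nt): numerical check, part C.
-/

set_option autoImplicit false
set_option maxRecDepth 100000

namespace Pool.Agent.H2.GW

theorem a41 : P0 41 3 1 = true := by decide +kernel
theorem a42 : P0 42 3 1 = true := by decide +kernel
theorem a43 : P0 43 3 1 = true := by decide +kernel
theorem a44 : P0 44 3 1 = true := by decide +kernel
theorem a45 : P0 45 3 1 = true := by decide +kernel
theorem a46 : P0 46 3 1 = true := by decide +kernel
theorem a47 : P0 47 3 1 = true := by decide +kernel
theorem a48 : P0 48 3 1 = true := by decide +kernel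
theorem a49 : P0 49 3 1 = true := by decide +kernel
theorem a50 : P0 50 3 1 = true := by decide +kernel
theorem a51 : P0 51 3 1 = true := by decide +kernel
theorem a52 : P0 52 3 1 = true := by decide +kernel
theorem a53 : P0 53 3 1 = true := by decide +kernel
theorem a54 : P0 54 3 1 = true := by decide +kernel
theorem a55 : P0 55 3 1 = true := by decide +kernel
theorem a56 : P0 56 3 1 = true := by decide +kernel
theorem a57 : P0 57 3 1 = true := by decide +kernel
theorem a58 : P0 58 3 1 = true := by decide +kernel
theorem a59 : P0 59 3 1 = true := by decide +kernel
theorem a60 : P0 60 3 1 = true := by decide +kernel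
theorem a61 : P0 61 3 1 = true := by decide +kernel
theorem a62 : P0 62 3 1 = true := by decide +kernel
theorem a63 : P0 63 3 1 = true := by decide +kernel
theorem a64 : P0 64 3 1 = true := by decide +kernel
theorem a65 : P0 65 3 1 = true := by decide +kernel
theorem a66 : P0 66 3 1 = true := by decide +kernel
theorem a67 : P0 67 3 1 = true := by decide +kernel
theorem a68 : P0 68 3 1 = true := by decide +kernel
theorem a69 : P0 69 3 1 = true := by decide +kernel
theorem a70 : P0 70 3 1 = true := by decide +kernel
theorem a71 : P0 71 3 1 = true := by decide +kernel
theorem a72 : P0 72 3 1 = true := by decide +kernel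
theorem a73 : P0 73 3 1 = true := by decide +kernel
theorem a74 : P0 74 3 1 = true := by decide +kernel
theorem a75 : P0 75 3 1 = true := by decide +kernel
theorem a76 : P0 76 3 1 = true := by decide +kernel
theorem a77 : P0 77 3 1 = true := by decide +kernel
theorem a78 : P0 78 3 1 = true := by decide +kernel
theorem a79 : P0 79 3 1 = true := by decide +kernel

end Pool.Agent.H2.GW
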