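import Pool.Agent.H2.GW.NumBase

/-!
Lattice Golomb-Welch (MP_684e05_nt): numerical check, part D.
-/

set_option autoImplicit false
set_option maxRecDepth 100000

namespace Pool.Agent.H2.GW

theorem b10 : P1 10 4 2 = true := by decide +kernel
theorem b12 : P1 12 5 2 = true := by decide +kernel
theorem b14 : P1 14 4 2 = true := by decide +kernel
theorem b16 : P1 16 4 2 = true := by decide +kernel
theorem b18 : P1 18 4 2 = true := by decide +kernel
theorem b20 : P1 20 4 2 = true := by decide +kernel
theorem b22 : P1 22 4 2 = true := by decide +kernel
theorem b24 : P1 24 4 2 = true := by decide +kernel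
theorem b26 : P1 26 5 1 = true := by decide +kernel
theorem b28 : P1 28 4 1 = true := by decide +kernel
theorem b30 : P1 30 4 1 = true := by decide +kernel
theorem b32 : P1 32 4 1 = true := by decide +kernel
theorem b34 : P1 34 4 1 = true := by decide +kernel
theorem b36 : P1 36 4 1 = true := by decide +kernel
theorem b38 : P1 38 4 1 = true := by decide +kernel
theorem b40 : P1 40 3 1 = true := by decide +kernel
theorem b42 : P1 42 3 1 = true := by decide +kernel
theorem b44 : P1 44 3 1 = true := by decide +kernel
theorem b46 : P1 46 3 1 = true := by decide +kernel
theorem b48 : P1 48 3 1 = true := by decide +kernel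
theorem b50 : P1 50 3 1 = true := by decide +kernel
theorem b52 : P1 52 3 1 = true := by decide +kernel
theorem b54 : P1 54 3 1 = true := by decide +kernel
theorem b56 : P1 56 3 1 = true := by decide +kernel
theorem b58 : P1 58 3 1 = true := by decide +kernel
theorem b60 : P1 60 3 1 = true := by decide +kernel
theorem b62 : P1 62 3 1 = true := by decide +kernel
theorem b64 : P1 64 3 1 = true := by decide +kernel
theorem b66 : P1 66 3 1 = true := by decide +kernel
theorem b68 : P1 68 3 1 = true := by decide +kernel
theorem b70 : P1 70 3 1 = true := by decide +kernel
theorem b72 : P1 72 3 1 = true := by decide +kernel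
theorem b74 : P1 74 3 1 = true := by decide +kernel
theorem b76 : P1 76 3 1 = true := by decide +kernel
theorem b78 : P1 78 3 1 = true := by decide +kernel

end Pool.Agent.H2.GW
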