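import Pool.Agent.H2.GW.NumA
import Pool.Agent.H2.GW.NumB
import Pool.Agent.H2.GW.NumC
import Pool.Agent.H2.GW.NumD

/-!
Lattice Golomb-Welch (MP_684e05_nt): numerical check for the radii from 8 to 79.
-/

set_option autoImplicit false

namespace Pool.Agent.H2.GW

open Pool.Agent.H71.GW

theorem num : T_NUM := by
  refine ⟨?_, ?_⟩
  · intro s h1 h2
    interval_cases s
    · exact of_P0 a8
    · exact of_P0 a9
    · exact of_P0 a10
    · exact of_P0 a11
    · exact of_P0 a12
    · exact of_P0 a13
    · exact of_P0 a14
    · exact of_P0 a15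
    · exact of_P0 a16
    · exact of_P0 a17
    · exact of_P0 a18
    · exact of_P0 a19
    · exact of_P0 a20
    · exact of_P0 a21
    · exact of_P0 a22
    · exact of_P0 a23
    · exact of_P0 a24
    · exact of_P0 a25
    · exact of_P0 a26
    · exact of_P0 a27
    · exact of_P0 a28
    · exact of_P0 a29
    · exact of_P0 a30
    · exact of_P0 a31
    · exact of_P0 a32
    · exact of_P0 a33
    · exact of_P0 a34
    · exact of_P0 a35
    · exact of_P0 a36
    · exact of_P0 a37
    · exact of_P0 a38
    · exact of_P0 a39
    · exact of_P0 a40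
    · exact of_P0 a41
    · exact of_P0 a42
    · exact of_P0 a43
    · exact of_P0 a44
    · exact of_P0 a45
    · exact of_P0 a46
    · exact of_P0 a47
    · exact of_P0 a48
    · exact of_P0 a49
    · exact of_P0 a50
    · exact of_P0 a51
    · exact of_P0 a52
    · exact of_P0 a53
    · exact of_P0 a54
    · exact of_P0 a55
    · exact of_P0 a56
    · exact of_P0 a57
    · exact of_P0 a58
    · exact of_P0 a59
    · exact of_P0 a60
    · exact of_P0 a61
    · exact of_P0 a62
    · exact of_P0 a63
    · exact of_P0 a64
    · exact of_P0 a65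
    · exact of_P0 a66
    · exact of_P0 a67
    · exact of_P0 a68
    · exact of_P0 a69
    · exact of_P0 a70
    · exact of_P0 a71
    · exact of_P0 a72
    · exact of_P0 a73
    · exact of_P0 a74
    · exact of_P0 a75
    · exact of_P0 a76
    · exact of_P0 a77
    · exact of_P0 a78
    · exact of_P0 a79
  · intro s h1 h2 h3
    obtain ⟨t, rfl⟩ : ∃ t, s = 2 * t := by
      obtain ⟨t, ht⟩ := h3
      exact ⟨t, by omega⟩
    have h4 : 5 ≤ t := by omega
    have h5 : t < 40 := by omega
    clear h1 h2 h3
    interval_cases t
    · exact of_P1 (s := 10) b10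
    · exact of_P1 (s := 12) b12
    · exact of_P1 (s := 14) b14
    · exact of_P1 (s := 16) b16
    · exact of_P1 (s := 18) b18
    · exact of_P1 (s := 20) b20
    · exact of_P1 (s := 22) b22
    · exact of_P1 (s := 24) b24
    · exact of_P1 (s := 26) b26
    · exact of_P1 (s := 28) b28
    · exact of_P1 (s := 30) b30
    · exact of_P1 (s := 32) b32
    · exact of_P1 (s := 34) b34
    · exact of_P1 (s := 36) b36
    · exact of_P1 (s := 38) b38
    · exact of_P1 (s := 40) b40
    · exact of_P1 (s := 42) b42
    · exact of_P1 (s := 44) b44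
    · exact of_P1 (s := 46) b46
    · exact of_P1 (s := 48) b48
    · exact of_P1 (s := 50) b50
    · exact of_P1 (s := 52) b52
    · exact of_P1 (s := 54) b54
    · exact of_P1 (s := 56) b56
    · exact of_P1 (s := 58) b58
    · exact of_P1 (s := 60) b60
    · exact of_P1 (s := 62) b62
    · exact of_P1 (s := 64) b64
    · exact of_P1 (s := 66) b66
    · exact of_P1 (s := 68) b68
    · exact of_P1 (s := 70) b70
    · exact of_P1 (s := 72) b72
    · exact of_P1 (s := 74) b74
    · exact of_P1 (s := 76) b76
    · exact of_P1 (s := 78) b78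

end Pool.Agent.H2.GW
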