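import Pool.Agent.H2.GW.NumBase

/-!
Lattice Golomb-Welch (MP_684e05_nt): numerical check, part A.
-/

set_option autoImplicit false
set_option maxRecDepth 100000

namespace Pool.Agent.H2.GW

theorem a8 : P0 8 5 2 = true := by decide +kernel
theorem a9 : P0 9 5 2 = true := by decide +kernel
theorem a10 : P0 10 5 2 = true := by decide +kernel
theorem a11 : P0 11 5 2 = true := by decide +kernel
theorem a12 : P0 12 5 2 = true := by decide +kernel
theorem a13 : P0 13 5 2 = true := by decide +kernel
theorem a14 : P0 14 5 2 = true := by decide +kernel

end Pool.Agent.H2.GW
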