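import Pool.Agent.H71.GW.Targets

/-!
Lattice Golomb-Welch (MP_684e05_nt): numerical check, definitions of the boolean tests.
-/

set_option autoImplicit false

namespace Pool.Agent.H2.GW

open Pool.Agent.H71.GW

/-- the check of a list -/
def okL (c m : ℕ) (L : List ℤ) : Bool :=
  good L && (decide (L.length ≤ c + 1) && decide (horner m L c 0 < 0))

/-- first check -/
def P0 (s EW k : ℕ) : Bool :=
  okL (s + 2) (if s = 8 then 54 else if s = 9 then 55 else if s = 10 then 66 else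
      (s * (s + 2) + 1) / 2) (TT s (s + 1) 0 EW 5 k)

/-- second check -/
def P1 (s EW k : ℕ) : Bool :=
  okL (s + 1) (if s = 10 then 71 else s * (s + 2) / 2) (TT s (s - 1) 1 EW 5 k)

theorem of_okL {c m : ℕ} {L : List ℤ} (h : okL c m L = true) :
    good L = true ∧ L.length ≤ c + 1 ∧ horner m L c 0 < 0 := by
  unfold okL at h
  rw [Bool.and_eq_true, Bool.and_eq_true, decide_eq_true_eq, decide_eq_true_eq] at h
  exact h

theorem of_P0 {s EW k : ℕ} (h : P0 s EW k = true) :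
    ∃ EW k : ℕ,
    good (TT s (s + 1) 0 EW 5 k) = true ∧ (TT s (s + 1) 0 EW 5 k).length ≤ s + 3 ∧
    horner (if s = 8 then 54 else if s = 9 then 55 else if s = 10 then 66 else
      (s * (s + 2) + 1) / 2) (TT s (s + 1) 0 EW 5 k) (s + 2) 0 < 0 :=
  ⟨EW, k, of_okL h⟩

theorem of_P1 {s EW k : ℕ} (h : P1 s EW k = true) :
    ∃ EW k : ℕ,
    good (TT s (s - 1) 1 EW 5 k) = true ∧ (TT s (s - 1) 1 EW 5 k).length ≤ s + 2 ∧
    horner (if s = 10 then 71 else s * (s + 2) / 2) (TT s (s - 1) 1 EW 5 k) (s + 1) 0 < 0 :=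
  ⟨EW, k, of_okL h⟩

end Pool.Agent.H2.GW
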